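import Pool.Agent.D0H69.MD.Interp1

/-!
# Project MD, module 1 (INTERP)
-/

set_option autoImplicit false

open Module Polynomial Pool.Agent.D0H56.MD

namespace Pool.Agent.D0H69.MD

section main

variable {K : Type} [Field K] [NumberField K] (x y : K) (P : Finset ℕ)

/-- jets at `(x, y)` and values at the `(x ^ p, y ^ p)` -/
abbrev AA (K : Type) [Field K] (P : Finset ℕ) : Type := K[X][X] × (P → K)

/-- the first variable -/
noncomputable def XA : AA K P := (C (X + C x), fun p => x ^ (p : ℕ))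

/-- the second variable -/
noncomputable def YA : AA K P := (X + C (C y), fun p => y ^ (p : ℕ))

/-- value at `(x, y)` -/
noncomputable def c1 (K : Type) [Field K] [NumberField K] (P : Finset ℕ) : AA K P →ₐ[ℚ] K :=
  (((Polynomial.constantCoeff (R := K)).comp (Polynomial.constantCoeff (R := K[X]))).toRatAlgHom).comp
    (AlgHom.fst ℚ _ _)

/-- value at `(x ^ p, y ^ p)` -/
noncomputable def ep (K : Type) [Field K] [NumberField K] {P : Finset ℕ} (p : P) : AA K P →ₐ[ℚ] K :=
  (Pi.evalAlgHom ℚ (fun _ : P => K) p).comp (AlgHom.snd ℚ _ _)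

lemma c1_apply (f : AA K P) : c1 K P f = (f.1.coeff 0).coeff 0 := rfl

lemma ep_apply (f : AA K P) (p : P) : ep K p f = f.2 p := rfl

lemma c1_X : c1 K P (XA x P) = x := by
  rw [c1_apply]; simp [XA]

lemma c1_Y : c1 K P (YA y P) = y := by
  rw [c1_apply]; simp [YA]

lemma ep_X (p : P) : ep K p (XA x P) = x ^ (p : ℕ) := rfl

lemma ep_Y (p : P) : ep K p (YA y P) = y ^ (p : ℕ) := rfl

/-- the value vector -/
noncomputable def Lam (K : Type) [Field K] [NumberField K] (T : ℕ) (P : Finset ℕ) :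
    AA K P →ₗ[ℚ] (J T P → K) where
  toFun f := Sum.elim (fun ij => (f.1.coeff (ij.2 : ℕ)).coeff (ij.1 : ℕ)) f.2
  map_add' f g := by
    ext ρ
    rcases ρ with ij | p
    · simp
    · simp
  map_smul' q f := by
    ext ρ
    rcases ρ with ij | p
    · simp
    · simp

lemma Lam_mon (T : ℕ) (m n : ℕ) :
    Lam K T P (XA x P ^ m * YA y P ^ n) = fun ρ => u T P x y ρ (m, n) := by
  funext ρ
  rcases ρ with ij | p
  · show ((((C (X + C x) : K[X][X]) ^ m * (X + C (C y)) ^ n)).coeff (ij.2 : ℕ)).coeff (ij.1 : ℕ) = _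
    rw [← C_pow, coeff_C_mul, coeff_X_add_C_pow, ← C_pow]
    have e : ((X + C x) ^ m * (C (y ^ (n - (ij.2 : ℕ))) * ((n.choose (ij.2 : ℕ) : ℕ) : K[X])) : K[X]) =
        C (y ^ (n - (ij.2 : ℕ)) * ((n.choose (ij.2 : ℕ) : ℕ) : K)) * (X + C x) ^ m := by
      rw [C_mul, map_natCast]
      ring
    rw [e, coeff_C_mul, coeff_X_add_C_pow]
    simp only [u]
    ring
  · rfl

/-- differentials -/
noncomputable def d0 (K : Type) [Field K] [NumberField K] (P : Finset ℕ) : AA K P →ₗ[ℚ] K where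
  toFun f := (f.1.coeff 0).coeff 1
  map_add' f g := by simp
  map_smul' q f := by simp

/-- differentials -/
noncomputable def d1 (K : Type) [Field K] [NumberField K] (P : Finset ℕ) : AA K P →ₗ[ℚ] K where
  toFun f := (f.1.coeff 1).coeff 0
  map_add' f g := by simp
  map_smul' q f := by simp

lemma d0_mul (f g : AA K P) : d0 K P (f * g) = c1 K P f * d0 K P g + c1 K P g * d0 K P f := by
  show ((f.1 * g.1).coeff 0).coeff 1 = (f.1.coeff 0).coeff 0 * (g.1.coeff 0).coeff 1 +
    (g.1.coeff 0).coeff 0 * (f.1.coeff 0).coeff 1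
  rw [mul_coeff_zero, mul_coeff_one]
  ring

lemma d1_mul (f g : AA K P) : d1 K P (f * g) = c1 K P f * d1 K P g + c1 K P g * d1 K P f := by
  show ((f.1 * g.1).coeff 1).coeff 0 = (f.1.coeff 0).coeff 0 * (g.1.coeff 1).coeff 0 +
    (g.1.coeff 0).coeff 0 * (f.1.coeff 1).coeff 0
  rw [mul_coeff_one, coeff_add, mul_coeff_zero, mul_coeff_zero]
  ring

end main

theorem t_INTERP : S_INTERP := by
  classical
  intro K _ _ x y L T P hL hT hP hspan hτ
  set l := L - 1 with hl
  have hl1 : 1 ≤ l := by omega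
  set XX := XA x P with hXX
  set YY := YA y P with hYY
  have hP1 : ∀ p : P, (p : ℕ) ≠ 1 := fun p h => hP (h ▸ p.2)
  -- surjectivity
  have s1 : ∀ z : K, ∃ g ∈ W XX YY l, c1 K P g = z := by
    apply surj_of (by omega)
    have h := hspan 1 (Finset.mem_insert_self _ _)
    rw [pow_one, pow_one] at h
    rw [hXX, hYY, c1_X, c1_Y]
    exact h
  have s2 : ∀ p : P, ∀ z : K, ∃ g ∈ W XX YY l, ep K p g = z := by
    intro p
    apply surj_of (by omega)
    exact hspan p (Finset.mem_insert_of_mem p.2)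
  -- separators
  have r1 : ∀ p : P, ∃ s ∈ W XX YY (2 * l), ep K p s = 0 ∧ c1 K P s ≠ 0 := by
    intro p
    apply sep hl1 _ _ (s2 p)
    intro τ hτ1
    rw [hXX, hYY, c1_X, c1_Y, ep_X, ep_Y] at hτ1
    refine hτ p (Finset.mem_insert_of_mem p.2) 1 (Finset.mem_insert_self _ _) (hP1 p) τ ?_
    rw [pow_one, pow_one]
    exact hτ1
  have r2 : ∀ p : P, ∃ s ∈ W XX YY (2 * l), c1 K P s = 0 ∧ ep K p s ≠ 0 := by
    intro p
    apply sep hl1 _ _ s1
    intro τ hτ1
    rw [hXX, hYY, c1_X, c1_Y, ep_X, ep_Y] at hτ1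
    refine hτ 1 (Finset.mem_insert_self _ _) p (Finset.mem_insert_of_mem p.2) (hP1 p).symm τ ?_
    rw [pow_one, pow_one]
    exact hτ1
  have r3 : ∀ p' p : P, p' ≠ p → ∃ s ∈ W XX YY (2 * l), ep K p' s = 0 ∧ ep K p s ≠ 0 := by
    intro p' p hne
    apply sep hl1 _ _ (s2 p')
    intro τ hτ1
    exact hτ p' (Finset.mem_insert_of_mem p'.2) p (Finset.mem_insert_of_mem p.2)
      (fun h => hne (Subtype.ext h)) τ hτ1
  choose sp hsW hs0 hsne using r1
  choose rp hrW hr0 hrne using r2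
  -- differentials
  have hdiff := diff (X := XX) (Y := YY) hl1 (c1 K P) (d0 K P) (d1 K P) (d0_mul P) (d1_mul P)
    (by rw [hXX]; show ((C (X + C x) : K[X][X]).coeff 0).coeff 1 = 1; simp [coeff_X, coeff_C])
    (by rw [hYY]; show ((X + C (C y) : K[X][X]).coeff 0).coeff 1 = 0; simp [coeff_X, coeff_C])
    (by rw [hXX]; show ((C (X + C x) : K[X][X]).coeff 1).coeff 0 = 0; simp [coeff_X, coeff_C])
    (by rw [hYY]; show ((X + C (C y) : K[X][X]).coeff 1).coeff 0 = 1; simp [coeff_X, coeff_C])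
    s1
  obtain ⟨g0, hg0W, hg0c, hg0⟩ := hdiff 1 0 (Or.inl one_ne_zero)
  have hg0' : d0 K P g0 ≠ 0 := by
    rw [one_mul, zero_mul, add_zero] at hg0
    exact hg0
  obtain ⟨g1, hg1W, hg1c, hg1⟩ := hdiff (-(d1 K P g0)) (d0 K P g0) (Or.inr hg0')
  have m0 : g0.1 ∈ I K := mem_I.2 hg0c
  have m1 : g1.1 ∈ I K := mem_I.2 hg1c
  have hd : (g0.1.coeff 0).coeff 1 * (g1.1.coeff 1).coeff 0 -
      (g0.1.coeff 1).coeff 0 * (g1.1.coeff 0).coeff 1 ≠ 0 := by
    intro h
    apply hg1
    show -((g0.1.coeff 1).coeff 0) * (g1.1.coeff 0).coeff 1 + (g0.1.coeff 0).coeff 1 * (g1.1.coeff 1).coeff 0 = 0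
    linear_combination h
  -- the product of the separators
  set s := ∏ p : P, sp p with hs
  have hsW' : s ∈ W XX YY (2 * l * P.card) := by
    have := W_prod (X := XX) (Y := YY) (m := 2 * l) Finset.univ sp (fun p _ => hsW p)
    rwa [Finset.card_univ, Fintype.card_coe] at this
  have hsc : c1 K P s ≠ 0 := by
    rw [hs, map_prod]
    exact Finset.prod_ne_zero_iff.2 fun p _ => hsne p
  have hse : ∀ p : P, ep K p s = 0 := by
    intro p
    rw [hs, map_prod]
    exact Finset.prod_eq_zero (Finset.mem_univ p) (hs0 p)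
  -- homogeneous steps
  have hE : ∀ k : ℕ, ∀ z ∈ I K ^ k, ∃ f ∈ W XX YY (2 * l * k + (2 * l * P.card + l)),
      (∀ p : P, ep K p f = 0) ∧ f.1 - z ∈ I K ^ (k + 1) := by
    intro k
    induction k with
    | zero =>
      intro z _
      obtain ⟨v, hvW, hv⟩ := s1 ((z.coeff 0).coeff 0 / c1 K P s)
      refine ⟨s * v, ?_, fun p => ?_, ?_⟩
      · have := W_mul hsW' hvW
        simpa using this
      · rw [map_mul, hse, zero_mul]
      · rw [zero_add, Submodule.pow_one, mem_I]
        have e : ((s * v).1.coeff 0).coeff 0 = (z.coeff 0).coeff 0 := by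
          rw [← c1_apply, map_mul, hv, mul_div_cancel₀ _ hsc]
        rw [coeff_sub, coeff_sub, e, sub_self]
    | succ k ih =>
      intro z hz
      obtain ⟨z0, hz0, z1, hz1, w, hw, rfl⟩ := dec_pow m0 m1 hd hz
      obtain ⟨f0, hf0W, hf0e, hf0⟩ := ih z0 hz0
      obtain ⟨f1, hf1W, hf1e, hf1⟩ := ih z1 hz1
      refine ⟨f0 * g0 + f1 * g1, ?_, fun p => ?_, ?_⟩
      · have h1 := W_mul hf0W hg0W
        have h2 := W_mul hf1W hg1W
        have e : 2 * l * k + (2 * l * P.card + l) + 2 * l = 2 * l * (k + 1) + (2 * l * P.card + l) := by ring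
        rw [e] at h1 h2
        exact add_mem h1 h2
      · rw [map_add, map_mul, map_mul, hf0e, hf1e, zero_mul, zero_mul, add_zero]
      · have e : (f0 * g0 + f1 * g1).1 - (z0 * g0.1 + z1 * g1.1 + w) =
            (f0.1 - z0) * g0.1 + (f1.1 - z1) * g1.1 - w := by
          rw [Prod.fst_add, Prod.fst_mul, Prod.fst_mul]
          ring
        rw [e]
        have e2 : I K ^ (k + 1 + 1) = I K ^ (k + 1) * I K := by rw [Submodule.pow_succ]
        refine sub_mem (add_mem ?_ ?_) hw
        · rw [e2]; exact Ideal.mul_mem_mul hf0 m0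
        · rw [e2]; exact Ideal.mul_mem_mul hf1 m1
  have hG : ∀ k : ℕ, ∀ z : K[X][X], ∃ f ∈ W XX YY (2 * l * k + (2 * l * P.card + l)),
      (∀ p : P, ep K p f = 0) ∧ f.1 - z ∈ I K ^ k := by
    intro k
    induction k with
    | zero =>
      intro z
      refine ⟨0, zero_mem _, fun p => map_zero _, ?_⟩
      rw [Submodule.pow_zero, Ideal.one_eq_top]
      trivial
    | succ k ih =>
      intro z
      obtain ⟨f, hfW, hfe, hf⟩ := ih z
      have hf' : z - f.1 ∈ I K ^ k := by
        rw [← neg_sub]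
        exact neg_mem hf
      obtain ⟨f', hfW', hfe', hf2⟩ := hE k _ hf'
      refine ⟨f + f', ?_, fun p => ?_, ?_⟩
      · have h := add_mem hfW hfW'
        refine W_mono_mem ?_ h
        gcongr
        omega
      · rw [map_add, hfe, hfe', add_zero]
      · have e : (f + f').1 - z = f'.1 - (z - f.1) := by
          rw [Prod.fst_add]; ring
        rw [e]
        exact hf2
  -- the values at the other points
  have hV : ∀ (p : P) (z : K), ∃ f ∈ W XX YY (2 * l * (2 * T) + (2 * l * P.card + l)),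
      f.1 ∈ I K ^ (2 * T) ∧ ep K p f = z ∧ ∀ p' : P, p' ≠ p → ep K p' f = 0 := by
    intro p z
    have r4 : ∀ p' : P, ∃ s ∈ W XX YY (2 * l), (p' ≠ p → ep K p' s = 0) ∧ ep K p s ≠ 0 := by
      intro p'
      by_cases h : p' = p
      · exact ⟨1, W_one _, fun h' => absurd h h', by rw [map_one]; exact one_ne_zero⟩
      · obtain ⟨s, h1, h2, h3⟩ := r3 p' p h
        exact ⟨s, h1, fun _ => h2, h3⟩
    choose q hqW hq0 hqne using r4
    set Q := ∏ p' : P, q p' with hQ
    have hQW : Q ∈ W XX YY (2 * l * P.card) := by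
      have := W_prod (X := XX) (Y := YY) (m := 2 * l) Finset.univ q (fun p _ => hqW p)
      rwa [Finset.card_univ, Fintype.card_coe] at this
    have hQp : ep K p Q ≠ 0 := by
      rw [hQ, map_prod]
      exact Finset.prod_ne_zero_iff.2 fun p' _ => hqne p'
    have hQe : ∀ p' : P, p' ≠ p → ep K p' Q = 0 := by
      intro p' hne
      rw [hQ, map_prod]
      exact Finset.prod_eq_zero (Finset.mem_univ p') (hq0 p' hne)
    have hrp : ep K p (rp p ^ (2 * T) * Q) ≠ 0 := by
      rw [map_mul, map_pow]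
      exact mul_ne_zero (pow_ne_zero _ (hrne p)) hQp
    obtain ⟨v, hvW, hv⟩ := s2 p (z / ep K p (rp p ^ (2 * T) * Q))
    refine ⟨rp p ^ (2 * T) * Q * v, ?_, ?_, ?_, ?_⟩
    · have h := W_mul (W_mul (W_pow (hrW p) (2 * T)) hQW) hvW
      rwa [add_assoc] at h
    · rw [Prod.fst_mul, Prod.fst_mul, Prod.pow_fst]
      exact Ideal.mul_mem_right _ _ (Ideal.mul_mem_right _ _ (Ideal.pow_mem_pow (mem_I.2 (hr0 p)) _))
    · rw [map_mul, hv, mul_div_cancel₀ _ hrp]
    · intro p' hne
      rw [map_mul, map_mul, hQe p' hne, mul_zero, zero_mul]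
  -- conclusion
  set N := L * (4 * T + 2 * P.card + 1) with hN
  have hNl : 2 * l * (2 * T) + (2 * l * P.card + l) < N := by
    rw [hN]
    have : L = l + 1 := by omega
    rw [this]
    nlinarith
  have hmap : (W XX YY (2 * l * (2 * T) + (2 * l * P.card + l))).map (Lam K T P) ≤
      Submodule.span ℚ {w : J T P → K | ∃ m n : ℕ, m < N ∧ n < N ∧ w = fun ρ => u T P x y ρ (m, n)} := by
    unfold W
    rw [Submodule.map_span]
    apply Submodule.span_mono
    rintro _ ⟨_, ⟨a, b, ha, hb, rfl⟩, rfl⟩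
    exact ⟨a, b, by omega, by omega, Lam_mon x y P T a b⟩
  rw [eq_top_iff]
  intro z _
  apply hmap
  choose v hvW hvI hvp hvp' using hV
  -- a polynomial with the prescribed jet
  set zB : K[X][X] := ∑ j : Fin T, ∑ i : Fin T, C (C (z (Sum.inl (i, j))) * X ^ (i : ℕ)) * X ^ (j : ℕ) with hzB
  have hzBc : ∀ i j : Fin T, (zB.coeff (j : ℕ)).coeff (i : ℕ) = z (Sum.inl (i, j)) := by
    intro i j
    rw [hzB, finsetSum_coeff, finsetSum_coeff, Finset.sum_eq_single j]
    · rw [finsetSum_coeff, finsetSum_coeff, Finset.sum_eq_single i]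
      · rw [coeff_C_mul, coeff_X_pow, if_pos rfl, mul_one, coeff_C_mul, coeff_X_pow, if_pos rfl, mul_one]
      · intro i' _ hne
        rw [coeff_C_mul, coeff_X_pow, if_pos rfl, mul_one, coeff_C_mul, coeff_X_pow,
          if_neg (fun h => hne (Fin.ext h.symm)), mul_zero]
      · intro h; exact absurd (Finset.mem_univ _) h
    · intro j' _ hne
      rw [finsetSum_coeff, finsetSum_coeff]
      apply Finset.sum_eq_zero
      intro i' _
      rw [coeff_C_mul, coeff_X_pow, if_neg (fun h => hne (Fin.ext h.symm)), mul_zero, Polynomial.coeff_zero]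
    · intro h; exact absurd (Finset.mem_univ _) h
  obtain ⟨f, hfW, hfe, hf⟩ := hG (2 * T) zB
  refine ⟨f + ∑ p : P, v p (z (Sum.inr p)), ?_, ?_⟩
  · exact add_mem hfW (Submodule.sum_mem _ fun p _ => hvW p _)
  · funext ρ
    rcases ρ with ij | p
    · show ((f + ∑ p : P, v p (z (Sum.inr p))).1.coeff (ij.2 : ℕ)).coeff (ij.1 : ℕ) = z (Sum.inl ij)
      have h1 : f.1 + (∑ p : P, v p (z (Sum.inr p))).1 - zB ∈ I K ^ (2 * T) := by
        have e : f.1 + (∑ p : P, v p (z (Sum.inr p))).1 - zB =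
            (f.1 - zB) + ∑ p : P, (v p (z (Sum.inr p))).1 := by
          rw [Prod.fst_sum]; ring
        rw [e]
        exact add_mem hf (Submodule.sum_mem _ fun p _ => hvI p _)
      have h2 := coeff_zero h1 (ij.1 : ℕ) (ij.2 : ℕ) (by omega)
      rw [coeff_sub, coeff_sub, hzBc ij.1 ij.2, sub_eq_zero] at h2
      rw [Prod.fst_add, h2]
    · show ep K p (f + ∑ p : P, v p (z (Sum.inr p))) = z (Sum.inr p)
      rw [map_add, hfe, zero_add, map_sum, Finset.sum_eq_single p]
      · exact hvp p _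
      · intro p' _ hne
        exact hvp' p' _ p hne.symm
      · intro h; exact absurd (Finset.mem_univ _) h

end Pool.Agent.D0H69.MD
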