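import Pool.Agent.D0H56.MD.Defs

/-!
# Project MD, module 1 (INTERP), part 1: algebra
-/

set_option autoImplicit false

open Module Polynomial

namespace Pool.Agent.D0H69.MD

section W

variable {A : Type} [CommRing A] [Algebra ℚ A] (X Y : A)

/-- span of the monomials of degree `≤ n` in both variables -/
def W (n : ℕ) : Submodule ℚ A := Submodule.span ℚ {z | ∃ a b : ℕ, a ≤ n ∧ b ≤ n ∧ z = X ^ a * Y ^ b}

variable {X Y}

lemma W_mono {m n : ℕ} (h : m ≤ n) : W X Y m ≤ W X Y n :=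
  Submodule.span_mono (by rintro _ ⟨a, b, ha, hb, rfl⟩; exact ⟨a, b, by omega, by omega, rfl⟩)

lemma W_mul {m n : ℕ} {f g : A} (hf : f ∈ W X Y m) (hg : g ∈ W X Y n) : f * g ∈ W X Y (m + n) := by
  have h : W X Y m * W X Y n ≤ W X Y (m + n) := by
    unfold W
    rw [Submodule.span_mul_span]
    apply Submodule.span_mono
    rintro _ ⟨_, ⟨a, b, ha, hb, rfl⟩, _, ⟨c, d, hc, hd, rfl⟩, rfl⟩
    refine ⟨a + c, b + d, by omega, by omega, ?_⟩
    show X ^ a * Y ^ b * (X ^ c * Y ^ d) = _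
    ring
  exact h (Submodule.mul_mem_mul hf hg)

lemma W_mono_mem {m n : ℕ} (h : m ≤ n) {f : A} (hf : f ∈ W X Y m) : f ∈ W X Y n := W_mono h hf

lemma W_mon {n a b : ℕ} (ha : a ≤ n) (hb : b ≤ n) : X ^ a * Y ^ b ∈ W X Y n :=
  Submodule.subset_span ⟨a, b, ha, hb, rfl⟩

lemma W_one (n : ℕ) : (1 : A) ∈ W X Y n := by
  have := W_mon (X := X) (Y := Y) (Nat.zero_le n) (Nat.zero_le n)
  simpa using this

lemma W_X {n : ℕ} (hn : 1 ≤ n) : X ∈ W X Y n := by
  have := W_mon (X := X) (Y := Y) hn (Nat.zero_le n)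
  simpa using this

lemma W_Y {n : ℕ} (hn : 1 ≤ n) : Y ∈ W X Y n := by
  have := W_mon (X := X) (Y := Y) (Nat.zero_le n) hn
  simpa using this

lemma W_pow {m : ℕ} {f : A} (hf : f ∈ W X Y m) (n : ℕ) : f ^ n ∈ W X Y (m * n) := by
  induction n with
  | zero => simpa using W_one 0
  | succ n ih =>
    rw [pow_succ]
    exact W_mul ih hf

lemma W_prod {ι : Type} {m : ℕ} (s : Finset ι) (f : ι → A) (hf : ∀ i ∈ s, f i ∈ W X Y m) :
    ∏ i ∈ s, f i ∈ W X Y (m * s.card) := by
  classical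
  induction s using Finset.induction_on with
  | empty => simpa using W_one 0
  | insert a s ha ih =>
    rw [Finset.prod_insert ha, Finset.card_insert_of_notMem ha]
    have h1 := ih (fun i hi => hf i (Finset.mem_insert_of_mem hi))
    have h2 := hf a (Finset.mem_insert_self _ _)
    have := W_mul h2 h1
    refine W_mono_mem ?_ this
    rw [mul_add, mul_one, add_comm]

variable {K : Type} [Field K] [Algebra ℚ K]

lemma surj_of {L : ℕ} (hL : 1 ≤ L) (e : A →ₐ[ℚ] K)
    (h : Submodule.span ℚ {z : K | ∃ m n : ℕ, m < L ∧ n < L ∧ z = (e X) ^ m * (e Y) ^ n} = ⊤) (z : K) :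
    ∃ g ∈ W X Y (L - 1), e g = z := by
  have h1 : (⊤ : Submodule ℚ K) ≤ (W X Y (L - 1)).map e.toLinearMap := by
    rw [← h]
    apply Submodule.span_le.2
    rintro _ ⟨m, n, hm, hn, rfl⟩
    refine ⟨X ^ m * Y ^ n, W_mon (by omega) (by omega), ?_⟩
    simp
  obtain ⟨g, hg, hgz⟩ := h1 (Submodule.mem_top : z ∈ ⊤)
  exact ⟨g, hg, hgz⟩

/-- separators -/
theorem sep {l : ℕ} (hl : 1 ≤ l) (e e' : A →ₐ[ℚ] K)
    (hs : ∀ z : K, ∃ g ∈ W X Y l, e g = z)
    (hτ : ∀ τ : K →+* K, ¬ (τ (e X) = e' X ∧ τ (e Y) = e' Y)) :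
    ∃ s ∈ W X Y (2 * l), e s = 0 ∧ e' s ≠ 0 := by
  by_contra hcon
  push Not at hcon
  choose g hg hge using hs
  have hW1 : ∀ f ∈ W X Y l, f ∈ W X Y (2 * l) := fun f hf => W_mono_mem (by omega) hf
  have key : ∀ f h : A, f ∈ W X Y (2 * l) → h ∈ W X Y (2 * l) → e f = e h → e' f = e' h := by
    intro f h hf hh he
    have := hcon (f - h) (sub_mem hf hh) (by rw [map_sub, he, sub_self])
    rwa [map_sub, sub_eq_zero] at this
  let τ : K →+* K :=
    { toFun := fun z => e' (g z)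
      map_one' := by
        rw [key (g 1) 1 (hW1 _ (hg _)) (W_one _) (by rw [hge, map_one]), map_one]
      map_mul' := fun z w => by
        rw [key (g (z * w)) (g z * g w) (hW1 _ (hg _)) (by rw [two_mul]; exact W_mul (hg _) (hg _))
          (by rw [map_mul, hge, hge, hge]), map_mul]
      map_zero' := by
        rw [key (g 0) 0 (hW1 _ (hg _)) (zero_mem _) (by rw [hge, map_zero]), map_zero]
      map_add' := fun z w => by
        rw [key (g (z + w)) (g z + g w) (hW1 _ (hg _)) (add_mem (hW1 _ (hg _)) (hW1 _ (hg _)))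
          (by rw [map_add, hge, hge, hge]), map_add] }
  apply hτ τ
  constructor
  · exact key _ _ (hW1 _ (hg _)) (W_X (by omega)) (hge _)
  · exact key _ _ (hW1 _ (hg _)) (W_Y (by omega)) (hge _)

/-- no derivations -/
lemma deriv_zero [NumberField K] (D : Derivation ℚ K K) : D = 0 := by
  ext z
  have hz : IsIntegral ℚ z := Algebra.IsIntegral.isIntegral z
  have h1 := D.map_aeval (minpoly ℚ z) z
  rw [minpoly.aeval, map_zero] at h1
  have h2 : aeval z (derivative (minpoly ℚ z)) ≠ 0 :=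
    (minpoly.irreducible hz).separable.aeval_derivative_ne_zero (minpoly.aeval ℚ z)
  rw [smul_eq_mul] at h1
  rcases mul_eq_zero.1 h1.symm with h | h
  · exact absurd h h2
  · simpa using h

/-- differentials -/
theorem diff [NumberField K] {l : ℕ} (hl : 1 ≤ l) (c : A →ₐ[ℚ] K) (d0 d1 : A →ₗ[ℚ] K)
    (h0 : ∀ f g, d0 (f * g) = c f * d0 g + c g * d0 f) (h1 : ∀ f g, d1 (f * g) = c f * d1 g + c g * d1 f)
    (h0X : d0 X = 1) (h0Y : d0 Y = 0) (h1X : d1 X = 0) (h1Y : d1 Y = 1)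
    (hs : ∀ z : K, ∃ g ∈ W X Y l, c g = z) (a b : K) (hab : a ≠ 0 ∨ b ≠ 0) :
    ∃ g ∈ W X Y (2 * l), c g = 0 ∧ a * d0 g + b * d1 g ≠ 0 := by
  by_contra hcon
  push Not at hcon
  choose g hg hgc using hs
  have hW1 : ∀ f ∈ W X Y l, f ∈ W X Y (2 * l) := fun f hf => W_mono_mem (by omega) hf
  let δ : A →ₗ[ℚ] K := (LinearMap.mulLeft ℚ a).comp d0 + (LinearMap.mulLeft ℚ b).comp d1
  have hδ : ∀ f, δ f = a * d0 f + b * d1 f := fun f => rfl
  have hδm : ∀ f g, δ (f * g) = c f * δ g + c g * δ f := by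
    intro f g
    rw [hδ, hδ, hδ, h0, h1]
    ring
  have key : ∀ f h : A, f ∈ W X Y (2 * l) → h ∈ W X Y (2 * l) → c f = c h → δ f = δ h := by
    intro f h hf hh he
    have := hcon (f - h) (sub_mem hf hh) (by rw [map_sub, he, sub_self])
    rw [← hδ, map_sub, sub_eq_zero] at this
    exact this
  let D : Derivation ℚ K K := Derivation.mk'
    { toFun := fun z => δ (g z)
      map_add' := fun z w => by
        rw [key (g (z + w)) (g z + g w) (hW1 _ (hg _)) (add_mem (hW1 _ (hg _)) (hW1 _ (hg _)))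
          (by rw [map_add, hgc, hgc, hgc]), map_add]
      map_smul' := fun q z => by
        rw [key (g (q • z)) (q • g z) (hW1 _ (hg _)) (Submodule.smul_mem _ _ (hW1 _ (hg _)))
          (by rw [map_smul, hgc, hgc]), map_smul]
        rfl }
    (fun z w => by
      show δ (g (z * w)) = z * δ (g w) + w * δ (g z)
      rw [key (g (z * w)) (g z * g w) (hW1 _ (hg _)) (by rw [two_mul]; exact W_mul (hg _) (hg _))
          (by rw [map_mul, hgc, hgc, hgc]), hδm, hgc, hgc])
  have hD := deriv_zero D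
  have hDv : ∀ z, δ (g z) = 0 := fun z => by
    have : D z = 0 := by rw [hD]; rfl
    exact this
  have ha : a = 0 := by
    have h := key (g (c X)) X (hW1 _ (hg _)) (W_X (by omega)) (hgc _)
    rw [hDv, hδ, h0X, h1X] at h
    linear_combination -h
  have hb : b = 0 := by
    have h := key (g (c Y)) Y (hW1 _ (hg _)) (W_Y (by omega)) (hgc _)
    rw [hDv, hδ, h0Y, h1Y] at h
    linear_combination -h
  rcases hab with h | h
  · exact h ha
  · exact h hb

end W

section B

variable {K : Type} [Field K]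

/-- the ideal `(s, t)` of `K[s][t]` -/
noncomputable def I (K : Type) [Field K] : Ideal K[X][X] :=
  RingHom.ker ((Polynomial.constantCoeff (R := K)).comp (Polynomial.constantCoeff (R := K[X])))

lemma mem_I {f : K[X][X]} : f ∈ I K ↔ (f.coeff 0).coeff 0 = 0 := by
  unfold I
  rw [RingHom.mem_ker]
  rfl

lemma dec (f : K[X][X]) (hf : f ∈ I K) : f = C X * C (divX (f.coeff 0)) + X * divX f := by
  have h1 := divX_mul_X_add f
  have h2 := divX_mul_X_add (f.coeff 0)
  rw [mem_I.1 hf, map_zero, add_zero] at h2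
  conv_lhs => rw [← h1, ← h2]
  rw [C_mul]
  ring

lemma sub_mem_I_sq {f : K[X][X]} (hf : f ∈ I K) :
    f - (C (C ((f.coeff 0).coeff 1)) * C X + C (C ((f.coeff 1).coeff 0)) * X) ∈ I K ^ 2 := by
  have e := dec f hf
  have h1 : (C X : K[X][X]) ∈ I K := by rw [mem_I]; simp
  have h2 : (X : K[X][X]) ∈ I K := by rw [mem_I]; simp
  have h3 : (C (divX (f.coeff 0)) - C (C ((f.coeff 0).coeff 1)) : K[X][X]) ∈ I K := by
    rw [mem_I]; simp
  have h4 : (divX f - C (C ((f.coeff 1).coeff 0)) : K[X][X]) ∈ I K := by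
    rw [mem_I]; simp
  have e2 : f - (C (C ((f.coeff 0).coeff 1)) * C X + C (C ((f.coeff 1).coeff 0)) * X) =
      C X * (C (divX (f.coeff 0)) - C (C ((f.coeff 0).coeff 1))) +
        X * (divX f - C (C ((f.coeff 1).coeff 0))) := by
    have : f = C X * C (divX (f.coeff 0)) + X * divX f := e
    linear_combination this
  rw [e2, pow_two]
  exact add_mem (Ideal.mul_mem_mul h1 h3) (Ideal.mul_mem_mul h2 h4)

lemma I_eq {h0 h1 : K[X][X]} (m0 : h0 ∈ I K) (m1 : h1 ∈ I K)
    (hd : (h0.coeff 0).coeff 1 * (h1.coeff 1).coeff 0 - (h0.coeff 1).coeff 0 * (h1.coeff 0).coeff 1 ≠ 0) :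
    I K = Ideal.span {h0} ⊔ Ideal.span {h1} ⊔ I K ^ 2 := by
  set Q := Ideal.span {h0} ⊔ Ideal.span {h1} ⊔ I K ^ 2 with hQ
  have q0 : h0 ∈ Q := Ideal.mem_sup_left (Ideal.mem_sup_left (Ideal.mem_span_singleton_self _))
  have q1 : h1 ∈ Q := Ideal.mem_sup_left (Ideal.mem_sup_right (Ideal.mem_span_singleton_self _))
  have q2 : ∀ f ∈ I K ^ 2, f ∈ Q := fun f hf => Ideal.mem_sup_right hf
  apply le_antisymm
  · set α := (h0.coeff 0).coeff 1
    set β := (h0.coeff 1).coeff 0
    set γ := (h1.coeff 0).coeff 1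
    set δ := (h1.coeff 1).coeff 0
    have k0 := q2 _ (sub_mem_I_sq m0)
    have k1 := q2 _ (sub_mem_I_sq m1)
    have l0 : (C (C α) * C X + C (C β) * X : K[X][X]) ∈ Q := by
      have := sub_mem q0 k0
      simpa using this
    have l1 : (C (C γ) * C X + C (C δ) * X : K[X][X]) ∈ Q := by
      have := sub_mem q1 k1
      simpa using this
    have hinv : (C (C ((α * δ - β * γ)⁻¹)) * C (C (α * δ - β * γ)) : K[X][X]) = 1 := by
      rw [← C_mul, ← C_mul, inv_mul_cancel₀ hd]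
      simp
    have hX : (C X : K[X][X]) ∈ Q := by
      have e : (C X : K[X][X]) = C (C ((α * δ - β * γ)⁻¹)) * (C (C δ) * (C (C α) * C X + C (C β) * X) -
          C (C β) * (C (C γ) * C X + C (C δ) * X)) := by
        have e1 : (C (C δ) * (C (C α) * C X + C (C β) * X) -
          C (C β) * (C (C γ) * C X + C (C δ) * X) : K[X][X]) = C (C (α * δ - β * γ)) * C X := by
          simp only [map_sub, map_mul]
          ring
        rw [e1, ← mul_assoc, hinv, one_mul]
      rw [e]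
      exact Ideal.mul_mem_left _ _ (sub_mem (Ideal.mul_mem_left _ _ l0) (Ideal.mul_mem_left _ _ l1))
    have hY : (X : K[X][X]) ∈ Q := by
      have e : (X : K[X][X]) = C (C ((α * δ - β * γ)⁻¹)) * (C (C α) * (C (C γ) * C X + C (C δ) * X) -
          C (C γ) * (C (C α) * C X + C (C β) * X)) := by
        have e1 : (C (C α) * (C (C γ) * C X + C (C δ) * X) -
          C (C γ) * (C (C α) * C X + C (C β) * X) : K[X][X]) = C (C (α * δ - β * γ)) * X := by
          simp only [map_sub, map_mul]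
          ring
        rw [e1, ← mul_assoc, hinv, one_mul]
      rw [e]
      exact Ideal.mul_mem_left _ _ (sub_mem (Ideal.mul_mem_left _ _ l1) (Ideal.mul_mem_left _ _ l0))
    intro f hf
    rw [dec f hf]
    exact add_mem (Ideal.mul_mem_right _ _ hX) (Ideal.mul_mem_right _ _ hY)
  · rw [hQ]
    refine sup_le (sup_le ?_ ?_) (Ideal.pow_le_self (by norm_num))
    · rw [Ideal.span_singleton_le_iff_mem]; exact m0
    · rw [Ideal.span_singleton_le_iff_mem]; exact m1

lemma dec_pow {h0 h1 : K[X][X]} (m0 : h0 ∈ I K) (m1 : h1 ∈ I K)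
    (hd : (h0.coeff 0).coeff 1 * (h1.coeff 1).coeff 0 - (h0.coeff 1).coeff 0 * (h1.coeff 0).coeff 1 ≠ 0)
    {k : ℕ} {z : K[X][X]} (hz : z ∈ I K ^ (k + 1)) :
    ∃ z0 ∈ I K ^ k, ∃ z1 ∈ I K ^ k, ∃ w ∈ I K ^ (k + 2), z = z0 * h0 + z1 * h1 + w := by
  have e : I K ^ (k + 1) = I K ^ k * Ideal.span {h0} ⊔ I K ^ k * Ideal.span {h1} ⊔ I K ^ (k + 2) := by
    have e2 : I K ^ (k + 2) = I K ^ k * I K ^ 2 := by
      rw [Submodule.pow_succ, Submodule.pow_succ, Submodule.pow_succ (n := 1), Submodule.pow_one, mul_assoc]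
    rw [Submodule.pow_succ, e2, ← Ideal.mul_sup, ← Ideal.mul_sup, ← I_eq m0 m1 hd]
  rw [e] at hz
  obtain ⟨a, ha, w, hw, rfl⟩ := Submodule.mem_sup.1 hz
  obtain ⟨b, hb, c, hc, rfl⟩ := Submodule.mem_sup.1 ha
  obtain ⟨z0, hz0, rfl⟩ := Ideal.mem_mul_span_singleton.1 hb
  obtain ⟨z1, hz1, rfl⟩ := Ideal.mem_mul_span_singleton.1 hc
  exact ⟨z0, hz0, z1, hz1, w, hw, rfl⟩

lemma coeff_zero {k : ℕ} : ∀ {f : K[X][X]}, f ∈ I K ^ k → ∀ i j : ℕ, i + j < k → (f.coeff j).coeff i = 0 := by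
  induction k with
  | zero => intro f _ i j h; omega
  | succ k ih =>
    intro f hf
    rw [Submodule.pow_succ] at hf
    refine Submodule.mul_induction_on hf ?_ ?_
    · intro a ha b hb i j hij
      rw [coeff_mul, finsetSum_coeff]
      apply Finset.sum_eq_zero
      rintro ⟨j1, j2⟩ hj
      rw [Finset.HasAntidiagonal.mem_antidiagonal] at hj
      rw [coeff_mul]
      apply Finset.sum_eq_zero
      rintro ⟨i1, i2⟩ hi
      rw [Finset.HasAntidiagonal.mem_antidiagonal] at hi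
      simp only at hi hj ⊢
      by_cases h : i1 + j1 < k
      · rw [ih ha i1 j1 h, zero_mul]
      · have h1 : i2 = 0 := by omega
        have h2 : j2 = 0 := by omega
        subst h1 h2
        rw [mem_I.1 hb, mul_zero]
    · intro a b ha hb i j hij
      rw [coeff_add, coeff_add, ha i j hij, hb i j hij, add_zero]

end B

end Pool.Agent.D0H69.MD
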